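import Mathlib
import Pool.Agent.H81.Minors

set_option autoImplicit false

namespace Pool.Agent.Results.MP_c3e14a_gt.Regular

open Set MeasureTheory Pointwise Pool.Agent.H81.Minors

/-- `V_k` of the zonotope with generators `p`: the sum of the `k`-volumes (square roots of Gram
determinants) of the parallelotopes spanned by `k` generators. -/
noncomputable def V {d n : ℕ} (k : ℕ) (p : Fin n → EuclideanSpace ℝ (Fin d)) : ℝ :=
  ∑ I ∈ (Finset.univ : Finset (Fin n)).powersetCard k,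
    √(Matrix.det (Matrix.of fun i j : I => inner ℝ (p i) (p j)))

/-- Volume of the unit ball of dimension `m`. -/
noncomputable def kappa (m : ℕ) : ℝ :=
  (volume (Metric.closedBall (0 : EuclideanSpace ℝ (Fin m)) 1)).toReal

/-- Mean width of the zonotope with generators `p`. -/
noncomputable def w {d n : ℕ} (p : Fin n → EuclideanSpace ℝ (Fin d)) : ℝ :=
  2 * kappa (d - 1) / (d * kappa d) * ∑ i, ‖p i‖

/-- A translate of the zonotope generated by the vertices of a regular simplex centred at `o`. -/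
def IsReg {d : ℕ} (Z : Set (EuclideanSpace ℝ (Fin d))) : Prop :=
  ∃ (p : Fin (d + 1) → EuclideanSpace ℝ (Fin d)) (v : EuclideanSpace ℝ (Fin d)) (s : ℝ),
    0 < s ∧ ∑ i, p i = 0 ∧ (∀ i j, i ≠ j → dist (p i) (p j) = s) ∧
      Z = v +ᵥ ∑ i, segment ℝ 0 (p i)

lemma kappa_pos (m : ℕ) : 0 < kappa m :=
  ENNReal.toReal_pos (Metric.measure_closedBall_pos _ _ one_pos).ne'
    measure_closedBall_lt_top.ne

lemma flip {d n : ℕ} (p : Fin n → EuclideanSpace ℝ (Fin d)) (ε : Fin n → ℝ)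
    (hε : ∀ i, ε i = 1 ∨ ε i = -1) :
    parallelepiped p = (∑ i, ((1 - ε i) / 2) • p i) +ᵥ parallelepiped fun i => ε i • p i := by
  ext x
  simp only [mem_vadd_set, mem_parallelepiped_iff, vadd_eq_add]
  constructor
  · rintro ⟨s, hs, rfl⟩
    refine ⟨_, ⟨fun i => ε i * (s i - (1 - ε i) / 2), ⟨fun i => ?_, fun i => ?_⟩, rfl⟩, ?_⟩
    · have h0 : 0 ≤ s i := hs.1 i
      have h1 : s i ≤ 1 := hs.2 i
      rcases hε i with h | h <;> simp [h] <;> linarith
    · have h0 : 0 ≤ s i := hs.1 i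
      have h1 : s i ≤ 1 := hs.2 i
      rcases hε i with h | h <;> simp [h] <;> linarith
    · rw [← Finset.sum_add_distrib]
      refine Finset.sum_congr rfl fun i _ => ?_
      rw [smul_smul, ← add_smul]
      congr 1
      rcases hε i with h | h <;> simp only [h] <;> ring
  · rintro ⟨_, ⟨s, hs, rfl⟩, rfl⟩
    refine ⟨fun i => (1 - ε i) / 2 + s i * ε i, ⟨fun i => ?_, fun i => ?_⟩, ?_⟩
    · have h0 : 0 ≤ s i := hs.1 i
      have h1 : s i ≤ 1 := hs.2 i
      rcases hε i with h | h <;> simp [h] <;> linarith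
    · have h0 : 0 ≤ s i := hs.1 i
      have h1 : s i ≤ 1 := hs.2 i
      rcases hε i with h | h <;> simp [h] <;> linarith
    · rw [← Finset.sum_add_distrib]
      refine Finset.sum_congr rfl fun i _ => ?_
      rw [smul_smul, ← add_smul]

theorem result (d k : ℕ) (hk : 1 < k) (hkd : k < d)
    (p : Fin (d + 1) → EuclideanSpace ℝ (Fin d)) (v : EuclideanSpace ℝ (Fin d))
    (_hp : Submodule.span ℝ (range p) = ⊤) (hw : w p = 1)
    (hmax : ∀ q : Fin (d + 1) → EuclideanSpace ℝ (Fin d),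
      Submodule.span ℝ (range q) = ⊤ → w q = 1 → V k q ≤ V k p) :
    IsReg (v +ᵥ ∑ i, segment ℝ 0 (p i)) := by
  have hd : 0 < d := by omega
  have hd' : (0 : ℝ) < d := by exact_mod_cast hd
  have hc : 0 < 2 * kappa (d - 1) / (d * kappa d) := by
    have := kappa_pos (d - 1)
    have := kappa_pos d
    positivity
  obtain ⟨S, hp⟩ : ∃ S, ∑ i, ‖p i‖ = S := ⟨_, rfl⟩
  have hS : 0 < S := by
    rw [w, hp] at hw
    by_contra h
    nlinarith [not_lt.1 h]
  have hcc : 0 < S ^ 2 / (d * (d + 1)) := by positivity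
  have hs : 0 < √(S ^ 2 / (d * (d + 1))) := Real.sqrt_pos.2 hcc
  have hq : ∑ i, ‖reg d (√(S ^ 2 / (d * (d + 1)))) i‖ = S := by
    simp only [reg_norm hd hs, Finset.sum_const, Finset.card_univ, Fintype.card_fin, nsmul_eq_mul]
    rw [← Real.sqrt_mul hcc.le, show S ^ 2 / (d * (d + 1)) * (d / (d + 1)) = (S / (d + 1)) ^ 2 by
      field_simp, Real.sqrt_sq (by positivity)]
    push_cast
    field_simp
  have h1 : Vk k (reg d (√(S ^ 2 / (d * (d + 1))))) ≤ Vk k p :=
    hmax _ (reg_span hd hs) (by rw [w, hq, ← hp]; exact hw)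
  have h2 := pow_le_pow_left₀ (Finset.sum_nonneg fun I _ => Real.sqrt_nonneg _) h1 2
  change Vk k _ ^ 2 ≤ _ at h2
  rw [reg_V hd _ hkd.le, Real.sq_sqrt hcc.le] at h2
  obtain ⟨t1, t2⟩ := tight hk hkd.le p hS hp h2
  obtain ⟨ε, e1, e2, e3⟩ := signs hd p hcc (fun i => by rw [t1]; field_simp) t2
  refine ⟨fun i => ε i • p i, v + ∑ i, ((1 - ε i) / 2) • p i, _, by positivity, e2, e3, ?_⟩
  rw [← parallelepiped_eq_sum_segment, ← parallelepiped_eq_sum_segment, flip p ε e1, vadd_vadd]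

end Pool.Agent.Results.MP_c3e14a_gt.Regular
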